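import Pool.Agent.Q138.PS.UI
import Pool.Agent.Results.MP_c9a594_an.GenericLiouvilleDense

/-!
# Furstenberg's orbit closure conjecture: Liouville numbers with approximations of denominators `⌊α P(n)⌋`

Let `q ≥ 2`. Outside a set of real numbers of Hausdorff dimension at most `q / (q + 1 / (q 2 ^ (q - 1)))` (that is
`8 / 9` for `q = 2`) every `α > 0` has the following property: for every integral polynomial `P` of degree `q` with positive
leading coefficient there is a set `D` of integers of natural density one such that the real numbers with approximations as good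
as `v ^ (- v)` by infinitely many reduced fractions with the denominators `v = ⌊α P(n)⌋`, `n ∈ D`, have dense orbits in all bases.
-/

set_option autoImplicit false

namespace Pool.Agent.Results.MP_c9a594_an.LiouvilleAlongRealMultiples

open Finset Filter Topology
open Pool.Agent.Q138.PS

/-- the closure of the orbit of `x` under multiplication by `b` modulo one -/
def orb (b : ℕ) (x : ℝ) : Set ℝ := closure (Set.range fun n : ℕ => Int.fract ((b : ℝ) ^ n * x))

/-- Every real number `x` with `|x - c / v| ≤ v ^ (- v)` for arbitrarily large `v` in `Q` and `c` prime to `v` has a dense orbit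
modulo one in all bases. -/
def DenseOrbits (Q : Set ℕ) : Prop :=
  ∀ x : ℝ, (∀ K : ℕ, ∃ v ∈ Q, K ≤ v ∧ ∃ c : ℤ, IsCoprime c v ∧ |x - c / v| ≤ 1 / (v : ℝ) ^ v) →
    ∀ b : ℕ, 2 ≤ b → orb b x = Set.Icc 0 1

/-- the natural number `⌊α P(n)⌋` -/
noncomputable def val (α : ℝ) (P : Polynomial ℤ) (n : ℕ) : ℕ := ⌊α * ((P.eval (n : ℤ) : ℤ) : ℝ)⌋₊

open Classical in
/-- the number of the `1 ≤ n ≤ N` with `⌊α P(n)⌋` in `S` -/
noncomputable def count (S : Set ℕ) (α : ℝ) (P : Polynomial ℤ) (N : ℕ) : ℕ := ((Icc 1 N).filter fun n : ℕ => val α P n ∈ S).card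

theorem count_eq (S : Set ℕ) (α : ℝ) (P : Polynomial ℤ) (N : ℕ) : (count S α P N : ℝ) = cnP (· ∈ S) α P N := by
  classical
  unfold count cnP cn
  refine congrArg _ (congrArg _ ?_)
  ext n
  simp only [mem_filter]
  rfl

theorem dense_mono {Q Q' : Set ℕ} (h : Q' ⊆ Q) (hQ : DenseOrbits Q) : DenseOrbits Q' := fun x hx =>
  hQ x fun K => by
    obtain ⟨v, hv, h2⟩ := hx K
    exact ⟨v, h hv, h2⟩

/-- **Theorem.** There is a set `Q` of integers which is `DenseOrbits` such that for each `q ≥ 2` there is a set `E` of Hausdorff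
dimension at most `q / (q + 1 / (q 2 ^ (q - 1)))` such that for each `α > 0` outside `E`:
(1) for all but `o(N)` of the `n ≤ N` the number `⌊α P(n)⌋` is in `Q`, uniformly in `P ∈ ℤ[X]` of degree `q` with positive
leading coefficient and coefficients of size at most `N ^ η`;
(2) in particular, for each `P` of degree `q` with positive leading coefficient the set `D` of the `n` for which `⌊α P(n)⌋` is in
`Q` has natural density one, and the set of the `⌊α P(n)⌋`, `n ∈ D`, is `DenseOrbits`. -/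
theorem result : ∃ Q : Set ℕ, DenseOrbits Q ∧ ∀ q : ℕ, 2 ≤ q →
    ∃ E : Set ℝ, dimH E ≤ ENNReal.ofReal (q / (q + 1 / ((q : ℝ) * 2 ^ (q - 1)))) ∧ ∀ α : ℝ, 0 < α → α ∉ E →
      (∀ ε : ℝ, 0 < ε → ∃ η : ℝ, 0 < η ∧ ∀ᶠ N : ℕ in atTop, ∀ P : Polynomial ℤ, P.natDegree = q → 0 < P.leadingCoeff →
        (∀ j, |((P.coeff j : ℤ) : ℝ)| ≤ (N : ℝ) ^ η) → (1 - ε) * N ≤ (count Q α P N : ℝ)) ∧
      ∀ P : Polynomial ℤ, P.natDegree = q → 0 < P.leadingCoeff → ∃ D : Set ℕ,
        Tendsto (fun N : ℕ => (({n : ℕ | 1 ≤ n ∧ n ≤ N ∧ n ∈ D} : Set ℕ).ncard : ℝ) / N) atTop (𝓝 1) ∧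
        DenseOrbits {v : ℕ | ∃ n ∈ D, v = val α P n} := by
  classical
  obtain ⟨Q, hQ1, hQ2⟩ := Pool.Agent.Results.MP_c9a594_an.GenericLiouvilleDense.result
  refine ⟨Q, fun x hx => (hQ2 x hx).1, fun q hq => ?_⟩
  replace hQ2 : DenseOrbits Q := fun x hx => (hQ2 x hx).1
  obtain ⟨E, hE, h⟩ := along_nat q hq (fun _ : Unit => (· ∈ Q)) (fun _ => 1) (fun _ => dn_of hQ1)
  refine ⟨E, hE, fun α hα hαE => ⟨fun ε hε => ?_, fun P hdeg hlead => ?_⟩⟩
  · obtain ⟨η, hη, h1⟩ := h α hα hαE () ε hε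
    refine ⟨η, hη, ?_⟩
    filter_upwards [h1] with N g P hdeg hlead hco
    have k := abs_le.1 (g P hdeg hlead hco)
    rw [count_eq]
    linarith [k.1]
  · refine ⟨{n : ℕ | val α P n ∈ Q}, ?_, ?_⟩
    · refine (along_fixed (h α hα hαE ()) hdeg hlead).congr fun N => ?_
      congr 1
      exact cn_ncard _ N
    · refine dense_mono ?_ hQ2
      rintro v ⟨n, hn, rfl⟩
      exact hn

end Pool.Agent.Results.MP_c9a594_an.LiouvilleAlongRealMultiples
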