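import Pool.Agent.Q91.FO8

set_option autoImplicit false

/-!
# Furstenberg's orbit closure conjecture: runs of digits of subexponential length and denominators with small
prime factors

Let `b ≥ 2` and `δ > 0`. If `x` has arbitrarily good approximations `|x - c / (u v)| ≤ exp (- (u v) ^ δ)` where
all primes dividing `u` divide `b`, where `v` is coprime to `b c`, and the primes dividing `v` are at most
`o((log v) ^ (1 / 4))`, then the orbit of `x` under multiplication by `b` is equidistributed modulo one along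
a sequence of lengths; so it is dense, and Furstenberg's inequality holds for `x`, `b` and every `a`.
For denominators composed of finitely many primes the inequality holds for all coprime pairs of bases.

The sums `∑ e(h c b^k / v)` over `k ≤ v ^ δ` are estimated by Weyl's method: along a progression to a modulus `M`
such that `b ^ M` is close to one for all primes dividing `v`, `b^k` is a polynomial of bounded degree modulo `v`
(Postnikov, Korobov, Gallagher, Iwaniec for characters).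
-/

namespace Pool.Agent.Results.MP_c9a594_an.SmoothDenominators

open Finset Filter Topology MeasureTheory
open Pool.Agent.H1R3.Det (weyl_criterion)
open Pool.Agent.Q91.FO

/-- the closure of the orbit of `x` under `x ↦ b x mod 1` -/
def orb (b : ℕ) (x : ℝ) : Set ℝ :=
  closure (Set.range (fun n : ℕ => Int.fract ((b : ℝ) ^ n * x)))

/-- There are lengths `J i`, tending to infinity, such that the first `J i` points of the orbit of `x` under
multiplication by `b` are equidistributed on the circle in the limit. -/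
def Equi (b : ℕ) (x : ℝ) : Prop :=
  ∃ J : ℕ → ℕ, Tendsto J atTop atTop ∧ ∀ f : C(AddCircle (1 : ℝ), ℂ),
    Tendsto (fun i => (∑ k ∈ range (J i), f (((b : ℝ) ^ k * x : ℝ) : AddCircle (1 : ℝ))) / (J i : ℂ)) atTop
      (𝓝 (∫ z, f z))

/-- all primes dividing `q` divide `s` -/
def Smooth (s q : ℕ) : Prop := ∀ p : ℕ, p.Prime → p ∣ q → p ∣ s

/-- the hypothesis of the first part -/
def Appr (δ : ℝ) (b : ℕ) (x : ℝ) (K : ℕ) : Prop :=
  ∃ (u v : ℕ) (c : ℤ), 1 ≤ u ∧ Smooth b u ∧ Nat.Coprime v b ∧ IsCoprime c (v : ℤ) ∧ K ≤ v ∧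
    (∀ p : ℕ, p.Prime → p ∣ v → (K : ℝ) * (p : ℝ) ^ 4 ≤ Real.log v) ∧
    |x - c / ((u * v : ℕ) : ℝ)| ≤ Real.exp (-((u * v : ℕ) : ℝ) ^ δ)

lemma Appr.mono {δ : ℝ} {b : ℕ} {x : ℝ} {K L : ℕ} (h : Appr δ b x L) (hKL : K ≤ L) : Appr δ b x K := by
  obtain ⟨u, v, c, h1, h2, h3, h4, h5, h6, h7⟩ := h
  refine ⟨u, v, c, h1, h2, h3, h4, hKL.trans h5, fun p hp hpv => ?_, h7⟩
  refine le_trans ?_ (h6 p hp hpv)
  exact mul_le_mul_of_nonneg_right (by exact_mod_cast hKL) (by positivity)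

lemma main {b : ℕ} {x δ : ℝ} (hb : 2 ≤ b) (hδ : 0 < δ) (h : ∀ K : ℕ, Appr δ b x K) :
    Equi b x ∧ orb b x = Set.Icc 0 1 ∧ ∀ a : ℕ, 1 ≤ dimH (orb a x) + dimH (orb b x) := by
  obtain ⟨J, hJ, hF⟩ := equidist hb hδ h
  have horb : orb b x = Set.Icc 0 1 := dense_orb hJ hF
  refine ⟨⟨J, hJ, fun f => weyl_criterion _ J hJ hF f⟩, horb, fun a => ?_⟩
  have hdim : dimH (orb b x) = 1 := by
    rw [horb]
    have := Real.dimH_of_nonempty_interior (E := ℝ) (s := Set.Icc (0 : ℝ) 1)
      (by rw [interior_Icc]; exact ⟨1 / 2, by norm_num, by norm_num⟩)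
    rw [this]
    simp
  rw [hdim]
  exact le_add_self

/-- **Theorem.** Let `δ > 0`.

(1) Let `b ≥ 2` and let `x` be a real number. Suppose that for every `K` there are `u ≥ 1`, `v ≥ K` and `c` such
that all primes dividing `u` divide `b`, `v` is coprime to `b` and to `c`, `K p ^ 4 ≤ log v` for all primes `p`
dividing `v`, and `|x - c / (u v)| ≤ exp (- (u v) ^ δ)`. Then the orbit of `x` under multiplication by `b` is
equidistributed modulo one along a sequence of lengths, it is dense, and Furstenberg's inequality holds for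
`x`, `b` and every `a`.

(2) Let `x` be irrational, `s ≥ 1`, and suppose that `|x - c / q| ≤ exp (- q ^ δ)` for arbitrarily large integers
`q` all of whose prime factors divide `s`. Then the conclusion of (1) holds for all `b ≥ 2` coprime to `s`, and
Furstenberg's inequality holds for `x` and all pairs of coprime bases `a, b ≥ 2`. -/
theorem result :
    (∀ (b : ℕ) (x δ : ℝ), 2 ≤ b → 0 < δ →
      (∀ K : ℕ, ∃ (u v : ℕ) (c : ℤ), 1 ≤ u ∧ Smooth b u ∧ Nat.Coprime v b ∧ IsCoprime c (v : ℤ) ∧ K ≤ v ∧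
        (∀ p : ℕ, p.Prime → p ∣ v → (K : ℝ) * (p : ℝ) ^ 4 ≤ Real.log v) ∧
        |x - c / ((u * v : ℕ) : ℝ)| ≤ Real.exp (-((u * v : ℕ) : ℝ) ^ δ)) →
      Equi b x ∧ orb b x = Set.Icc 0 1 ∧ ∀ a : ℕ, 1 ≤ dimH (orb a x) + dimH (orb b x)) ∧
    (∀ (s : ℕ) (x δ : ℝ), 1 ≤ s → 0 < δ → Irrational x →
      (∀ Q : ℕ, ∃ (q : ℕ) (c : ℤ), Q ≤ q ∧ Smooth s q ∧ |x - c / q| ≤ Real.exp (-(q : ℝ) ^ δ)) →
      (∀ b : ℕ, 2 ≤ b → Nat.Coprime b s →
        Equi b x ∧ orb b x = Set.Icc 0 1 ∧ ∀ a : ℕ, 1 ≤ dimH (orb a x) + dimH (orb b x)) ∧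
      ∀ a b : ℕ, 2 ≤ a → 2 ≤ b → Nat.Coprime a b →
        ((Equi a x ∧ orb a x = Set.Icc 0 1) ∨ (Equi b x ∧ orb b x = Set.Icc 0 1)) ∧
        1 ≤ dimH (orb a x) + dimH (orb b x)) := by
  refine ⟨fun b x δ hb hδ h => main hb hδ h, fun s x δ hs hδ hx h => ?_⟩
  have hlow := lowest hx hδ h
  have hpair : ∀ a b : ℕ, Nat.Coprime a b → (∀ K : ℕ, Appr δ b x K) ∨ (∀ K : ℕ, Appr δ a x K) := by
    intro a b hab
    by_cases hall : ∀ K : ℕ, Appr δ b x K
    · exact Or.inl hall
    · right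
      push Not at hall
      obtain ⟨K0, hK0⟩ := hall
      intro K
      rcases parts hs hlow hab (max K K0) with h1 | h1
      · exact absurd (Appr.mono h1 (le_max_right K K0)) hK0
      · exact Appr.mono h1 (le_max_left K K0)
  refine ⟨fun b hb hbs => ?_, fun a b ha hb hab => ?_⟩
  · refine main hb hδ fun K => ?_
    obtain ⟨L, hL⟩ : ∃ L : ℕ, L = ⌈Real.exp (K * (s : ℝ) ^ 4)⌉₊ + K + 1 := ⟨_, rfl⟩
    obtain ⟨q, c, hLq, hq1, hqs, hcq, hxq⟩ := hlow L
    have hq0 : (0 : ℝ) < q := by exact_mod_cast hq1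
    refine ⟨1, q, c, le_refl _, fun p hp h1 => absurd (Nat.dvd_one.1 h1) hp.ne_one, ?_, hcq, by omega,
      fun p hp hpq => ?_, by rw [one_mul]; exact hxq⟩
    · rw [Nat.coprime_iff_gcd_eq_one]
      by_contra hne
      obtain ⟨p, hp, hpd⟩ := Nat.exists_prime_and_dvd hne
      have h1 : p ∣ s := hqs p hp (hpd.trans (Nat.gcd_dvd_left _ _))
      have h2 : p ∣ b := hpd.trans (Nat.gcd_dvd_right _ _)
      exact (Nat.Prime.not_coprime_iff_dvd.2 ⟨p, hp, h2, h1⟩) hbs
    · have h1 : p ≤ s := Nat.le_of_dvd hs (hqs p hp hpq)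
      have h2 : (p : ℝ) ≤ s := by exact_mod_cast h1
      have h3 : Real.exp (K * (s : ℝ) ^ 4) ≤ q := by
        refine (Nat.le_ceil _).trans ?_
        exact_mod_cast (by omega : ⌈Real.exp (K * (s : ℝ) ^ 4)⌉₊ ≤ q)
      have h4 : (K : ℝ) * (s : ℝ) ^ 4 ≤ Real.log q := (Real.le_log_iff_exp_le hq0).2 h3
      refine le_trans ?_ h4
      exact mul_le_mul_of_nonneg_left (pow_le_pow_left₀ (Nat.cast_nonneg _) h2 4) (Nat.cast_nonneg _)
  · rcases hpair a b hab with h1 | h1
    · have := main hb hδ h1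
      exact ⟨Or.inr ⟨this.1, this.2.1⟩, this.2.2 a⟩
    · have := main ha hδ h1
      refine ⟨Or.inl ⟨this.1, this.2.1⟩, ?_⟩
      rw [add_comm]; exact this.2.2 b

end Pool.Agent.Results.MP_c9a594_an.SmoothDenominators
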