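import Mathlib
import Pool.Agent.Q77.Cos.Ran

/-!
# Furstenberg's orbit closure conjecture: boundedly many exceptions in each class of real numbers
whose expansions in base `a` differ at sparse places

Let `O m r` be the closure of the orbit of `r` modulo one under multiplication by `m`, and let `b`
be such that some prime divides `a` but not `b`. Start from an arbitrary real number `x` and add `1`
to the digits in base `a` at the places `n + 1`, `n ∈ A`, where `A` is a subset of a sparse set `P`.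
This does not change the dimension of the orbit closure under multiplication by `a`. At most
`C / δ ^ 6` of the sets `A` lead to a number whose orbit under multiplication by `b` misses an
interval of length `δ`, if `P` is very sparse; so all but countably many lead to a number with
`O b = [0, 1]` for all such `b` at once. For an arbitrary infinite set `P` this holds for almost
all subsets. The basic estimate: for coprime `a` and `b` the orbits of boundedly many elements of
`x + ℤ[1/a]` miss an interval of length `δ`.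
-/

set_option autoImplicit false

open Filter Set Topology MeasureTheory
open scoped ENNReal

namespace Pool.Agent.Results.MP_c9a594_an.SparseDigitChanges

/-- the closure of the orbit of `r` modulo one under multiplication by `m` -/
def O (m : ℕ) (r : ℝ) : Set ℝ := closure (range fun n : ℕ => Int.fract ((m : ℝ) ^ n * r))

/-- the number whose digits in base `a` are `1` at the places `n + 1`, `n ∈ A`, and `0` elsewhere:
the sum of the `a ^ (-n - 1)`, `n ∈ A` -/
noncomputable def z (a : ℕ) (A : Set ℕ) : ℝ :=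
  ∑' n, A.indicator (fun n : ℕ => ((a : ℝ) ^ (n + 1))⁻¹) n

/-- some open interval of length `δ` in `[0, 1]` is disjoint from `K` -/
def Gap (δ : ℝ) (K : Set ℝ) : Prop := ∃ u : ℝ, 0 ≤ u ∧ u + δ ≤ 1 ∧ Disjoint K (Ioo u (u + δ))

/-- some prime divides `a` but not `b`; this implies that `a` and `b` are multiplicatively
independent, and holds for example if `a ≥ 2` and `b` are coprime -/
def NewPrime (a b : ℕ) : Prop := ∃ p : ℕ, p.Prime ∧ p ∣ a ∧ ¬ p ∣ b

/-- gaps tending to infinity -/
def Sparse (P : Set ℕ) : Prop := ∀ K : ℕ, ∃ M : ℕ, ∀ m ∈ P, ∀ n ∈ P, M ≤ m → m < n → m + K ≤ n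

/-- superexponential growth -/
def VerySparse (P : Set ℕ) : Prop := ∀ m ∈ P, ∀ n ∈ P, m < n → (m + 2) ^ (m + 2) ≤ n

/-- one toss of a fair coin -/
noncomputable def coin : Measure Bool :=
  (2⁻¹ : ℝ≥0∞) • Measure.dirac true + (2⁻¹ : ℝ≥0∞) • Measure.dirac false

/-- `y` has the same dimension of the orbit closure in base `a` as `x` and dense orbits in all
bases `b` such that a prime divides `a` but not `b` -/
def Good (a : ℕ) (x y : ℝ) : Prop := dimH (O a y) = dimH (O a x) ∧
  ∀ b : ℕ, 2 ≤ b → NewPrime a b → O b y = Icc 0 1 ∧ 1 ≤ dimH (O a y) + dimH (O b y)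

lemma finite_of_card_le {α : Type*} (S : Set α) (K : ℝ)
    (h : ∀ F : Finset α, (F : Set α) ⊆ S → (F.card : ℝ) ≤ K) :
    S.Finite ∧ (S.ncard : ℝ) ≤ K := by
  have hfin : S.Finite := by
    by_contra hinf
    obtain ⟨m, hm⟩ := exists_nat_gt K
    obtain ⟨F, hF, hFm⟩ := (show S.Infinite from hinf).exists_subset_card_eq m
    have := h F hF
    rw [hFm] at this
    linarith
  refine ⟨hfin, ?_⟩
  have h1 := h hfin.toFinset (by simp)
  rwa [← Set.ncard_eq_toFinset_card S hfin] at h1

lemma gap_miss {b : ℕ} {y δ : ℝ} (h : Gap δ (O b y)) : Pool.Agent.Q77.Cos.MissAll b (δ / 2) y := by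
  obtain ⟨u, h0, h1, h2⟩ := h
  exact Pool.Agent.Q77.Cos.missAll_of_disjoint h0 h1 h2

lemma kap_nonneg (b s : ℕ) : (0 : ℝ) ≤ Pool.Agent.Q77.Cos.kap b s := Nat.cast_nonneg _

/-- every class modulo `ℤ[1/a]` -/
lemma class_card (a b : ℕ) (ha : 2 ≤ a) (hb : 2 ≤ b) (hcop : Nat.Coprime b a) (x δ : ℝ)
    (hδ : 0 < δ) (F : Finset ℝ)
    (hF : (F : Set ℝ) ⊆ {y : ℝ | 0 ≤ y ∧ y < 1 ∧ (∃ (n : ℕ) (k : ℤ), y - x = k / (a : ℝ) ^ n) ∧
      Gap δ (O b y)}) :
    (F.card : ℝ) ≤ 2048 * Pool.Agent.Q77.Cos.kap b a / δ ^ 6 := by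
  classical
  have haR : (0 : ℝ) < a := by exact_mod_cast (by omega : 0 < a)
  have h1 : ∀ y : ℝ, ∃ (n : ℕ) (k : ℤ), y ∈ F → y - x = k / (a : ℝ) ^ n := by
    intro y
    by_cases hy : y ∈ F
    · obtain ⟨-, -, ⟨n, k, h⟩, -⟩ := hF hy
      exact ⟨n, k, fun _ => h⟩
    · exact ⟨0, 0, fun h => absurd h hy⟩
  choose f g hfg using h1
  set n := F.sup f with hn
  set q : ℤ := (a : ℤ) ^ n with hq
  have hq0 : 0 < q := by rw [hq]; positivity
  have hqR : ((q : ℤ) : ℝ) = (a : ℝ) ^ n := by rw [hq]; push_cast; rfl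
  set k : ℝ → ℤ := fun y => g y * (a : ℤ) ^ (n - f y) with hk
  have hky : ∀ y ∈ F, y - x = k y / (a : ℝ) ^ n := by
    intro y hy
    have h2 : f y ≤ n := Finset.le_sup hy
    rw [hfg y hy, hk]
    push_cast
    have h3 : (a : ℝ) ^ n = (a : ℝ) ^ (f y) * (a : ℝ) ^ (n - f y) := by
      rw [← pow_add]; congr 1; omega
    rw [h3]
    field_simp
  have hmod : ∀ y ∈ F, y = x + (((k y % q).toNat : ℕ) : ℝ) / (a : ℝ) ^ n + ((k y / q : ℤ) : ℝ) := by
    intro y hy
    have h2 := hky y hy
    have h3 : ((((k y % q).toNat : ℕ) : ℤ) : ℝ) = ((k y % q : ℤ) : ℝ) := by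
      rw [Int.toNat_of_nonneg (Int.emod_nonneg _ hq0.ne')]
    rw [Int.cast_natCast] at h3
    rw [h3]
    have h4 : (k y : ℝ) = (q : ℝ) * ((k y / q : ℤ) : ℝ) + ((k y % q : ℤ) : ℝ) := by
      have := Int.mul_ediv_add_emod (k y) q
      exact_mod_cast this.symm
    have h5 : y = x + k y / (a : ℝ) ^ n := by linarith
    calc y = x + k y / (a : ℝ) ^ n := h5
      _ = _ := by
        rw [h4, hqR]
        field_simp
        ring
  have hcard : F.card ≤ ((Finset.range (a ^ n)).filter (fun j : ℕ =>
      Pool.Agent.Q77.Cos.Miss b (δ / 2) (a ^ n) (x + j / (a : ℝ) ^ n))).card := by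
    apply Finset.card_le_card_of_injOn (fun y => (k y % q).toNat)
    · intro y hy
      rw [Finset.mem_coe] at hy
      rw [Finset.mem_coe, Finset.mem_filter, Finset.mem_range]
      refine ⟨?_, ?_⟩
      · have h2 := Int.emod_lt_of_pos (k y) hq0
        have h3 := Int.emod_nonneg (k y) hq0.ne'
        zify
        rw [Int.toNat_of_nonneg h3]
        exact h2
      · have h2 := (gap_miss (hF hy).2.2.2).miss (a ^ n)
        rw [hmod y hy] at h2
        exact Pool.Agent.Q77.Cos.miss_int _ h2
    · intro y hy y' hy' hyy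
      rw [Finset.mem_coe] at hy hy'
      simp only at hyy
      have h2 := hmod y hy
      have h3 := hmod y' hy'
      rw [← hyy] at h3
      obtain ⟨h4, h5, -⟩ := hF hy
      obtain ⟨h6, h7, -⟩ := hF hy'
      have h8 : y - y' = ((k y / q - k y' / q : ℤ) : ℝ) := by
        push_cast
        linarith
      have h9 : k y / q - k y' / q = 0 := by
        have h10 : ((k y / q - k y' / q : ℤ) : ℝ) < 1 := by rw [← h8]; linarith
        have h11 : (-1 : ℝ) < ((k y / q - k y' / q : ℤ) : ℝ) := by rw [← h8]; linarith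
        have h12 : k y / q - k y' / q < 1 := by exact_mod_cast h10
        have h13 : -1 < k y / q - k y' / q := by exact_mod_cast h11
        omega
      rw [h9] at h8
      simp only [Int.cast_zero] at h8
      linarith
  calc (F.card : ℝ) ≤ (((Finset.range (a ^ n)).filter (fun j : ℕ =>
      Pool.Agent.Q77.Cos.Miss b (δ / 2) (a ^ n) (x + j / (a : ℝ) ^ n))).card : ℝ) := by
        exact_mod_cast hcard
    _ ≤ 32 * Pool.Agent.Q77.Cos.kap b a / (δ / 2) ^ 6 := by
        convert Pool.Agent.Q77.Cos.miss_card b a hb (by omega) hcop n (a ^ n) le_rfl (δ / 2)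
          (by positivity) x
    _ = _ := by
        field_simp
        ring

/-- **Sparse changes of digits.** -/
theorem result (a : ℕ) (ha : 2 ≤ a) :
    -- (1) boundedly many exceptions in each class modulo `ℤ[1/a]`
    (∀ b : ℕ, 2 ≤ b → b.Coprime a → ∃ C : ℝ, ∀ x δ : ℝ, 0 < δ →
      {y : ℝ | 0 ≤ y ∧ y < 1 ∧ (∃ (n : ℕ) (k : ℤ), y - x = k / (a : ℝ) ^ n) ∧
        Gap δ (O b y)}.Finite ∧
      ({y : ℝ | 0 ≤ y ∧ y < 1 ∧ (∃ (n : ℕ) (k : ℤ), y - x = k / (a : ℝ) ^ n) ∧
        Gap δ (O b y)}.ncard : ℝ) ≤ C / δ ^ 6) ∧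
    -- (2) boundedly many exceptions in each class of very sparse changes of digits
    (∀ b : ℕ, 2 ≤ b → NewPrime a b → ∃ C : ℝ, ∀ P : Set ℕ, P.Infinite → VerySparse P →
      ∀ x δ : ℝ, 0 < δ →
        {A : Set ℕ | A ⊆ P ∧ Gap δ (O b (x + z a A))}.Finite ∧
        ({A : Set ℕ | A ⊆ P ∧ Gap δ (O b (x + z a A))}.ncard : ℝ) ≤ C / δ ^ 6) ∧
    -- (3) all but countably many very sparse changes lead to a number for which the conjecture holds
    (∀ P : Set ℕ, VerySparse P → ∀ x : ℝ, {A : Set ℕ | A ⊆ P ∧ ¬ Good a x (x + z a A)}.Countable) ∧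
    -- (4) arbitrary infinite sets of places: almost all changes
    (∀ P : Set ℕ, P.Infinite → ∀ x : ℝ, ∀ᵐ ω ∂(Measure.infinitePi fun _ : ℕ => coin),
      ∀ b : ℕ, 2 ≤ b → NewPrime a b → O b (x + z a {n | n ∈ P ∧ ω n = true}) = Icc 0 1) ∧
    -- (5) sparse changes do not change the dimension in base `a`
    (∀ P : Set ℕ, Sparse P → ∀ x : ℝ, ∀ A : Set ℕ, A ⊆ P →
      dimH (O a (x + z a A)) = dimH (O a x)) := by
  have h5 : ∀ P : Set ℕ, Sparse P → ∀ x : ℝ, ∀ A : Set ℕ, A ⊆ P →
      dimH (O a (x + z a A)) = dimH (O a x) := fun P hP x A hA =>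
    Pool.Agent.Q77.Cos.dimH_orb_add a x _ (Pool.Agent.Q77.Cos.orb_zn_countable a ha P A hA hP)
  have h2 : ∀ b : ℕ, 2 ≤ b → NewPrime a b → ∃ C : ℝ, ∀ P : Set ℕ, P.Infinite → VerySparse P →
      ∀ x δ : ℝ, 0 < δ →
        {A : Set ℕ | A ⊆ P ∧ Gap δ (O b (x + z a A))}.Finite ∧
        ({A : Set ℕ | A ⊆ P ∧ Gap δ (O b (x + z a A))}.ncard : ℝ) ≤ C / δ ^ 6 := by
    rintro b hb ⟨p, hp1, hp2, hp3⟩
    obtain ⟨s, a1, w, e1, e2, e3⟩ := Pool.Agent.Q77.Cos.decomp b a (by omega)
    have hs2 : 2 ≤ s := Pool.Agent.Q77.Cos.decomp_two hp1 hp2 hp3 e1 e3 (by omega)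
    refine ⟨131072 * Pool.Agent.Q77.Cos.kap b s, fun P hP hsp x δ hδ => ?_⟩
    apply finite_of_card_le
    intro F hF
    have h6 := Pool.Agent.Q77.Cos.sparse_card a b s a1 w hb e1 ha hs2 e2 e3 P hP hsp (δ / 2)
      (by positivity) x F (fun A hA => (hF hA).1) (fun A hA => gap_miss (hF hA).2)
    refine h6.trans (le_of_eq ?_)
    field_simp
    ring
  refine ⟨?_, h2, ?_, ?_, h5⟩
  · intro b hb hcop
    refine ⟨2048 * Pool.Agent.Q77.Cos.kap b a, fun x δ hδ => ?_⟩
    apply finite_of_card_le
    intro F hF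
    exact class_card a b ha hb hcop x δ hδ F hF
  · intro P hsp x
    rcases P.finite_or_infinite with hfin | hinf
    · exact (hfin.finite_subsets.subset fun A hA => hA.1).countable
    · have hsparse : Sparse P := by
        intro K
        refine ⟨K, fun m hm n hn hKm hmn => ?_⟩
        have h6 := hsp m hm n hn hmn
        have h7 : (m + 2) ^ 2 ≤ (m + 2) ^ (m + 2) := Nat.pow_le_pow_right (by omega) (by omega)
        nlinarith
      have hsub : {A : Set ℕ | A ⊆ P ∧ ¬ Good a x (x + z a A)} ⊆
          ⋃ b ∈ {b : ℕ | 2 ≤ b ∧ NewPrime a b}, ⋃ j : ℕ,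
            {A : Set ℕ | A ⊆ P ∧ Gap (1 / ((j : ℝ) + 1)) (O b (x + z a A))} := by
        rintro A ⟨hA, hgood⟩
        by_contra hcon
        apply hgood
        refine ⟨h5 P hsparse x A hA, fun b hb hnew => ?_⟩
        have hO : O b (x + z a A) = Icc 0 1 := by
          by_contra hne
          have h6 : ∃ δ : ℝ, 0 < δ ∧ Gap δ (O b (x + z a A)) := by
            by_contra hno
            push Not at hno
            apply hne
            apply Subset.antisymm (Pool.Agent.Q77.Cos.orb_subset b _)
            intro v hv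
            by_contra hvO
            have hopen : IsOpen (O b (x + z a A))ᶜ := isClosed_closure.isOpen_compl
            obtain ⟨ε, hε, hball⟩ := Metric.isOpen_iff.1 hopen v hvO
            set η : ℝ := min ε (1 / 2) with hη
            have hη0 : 0 < η := by rw [hη]; positivity
            have hη1 : η ≤ ε := min_le_left _ _
            have hη2 : η ≤ 1 / 2 := min_le_right _ _
            obtain ⟨hv0, hv1⟩ := hv
            have key : ∀ u : ℝ, 0 ≤ u → u + η ≤ 1 → v - ε ≤ u → u + η ≤ v + ε →
                Gap η (O b (x + z a A)) := by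
              intro u h0 h1 h2 h3
              refine ⟨u, h0, h1, ?_⟩
              rw [Set.disjoint_left]
              intro t ht htI
              apply hball _ ht
              rw [Metric.mem_ball, Real.dist_eq, abs_lt]
              constructor <;> linarith [htI.1, htI.2]
            rcases le_or_gt v (1 / 2) with h1 | h1
            · exact hno η hη0 (key v hv0 (by linarith) (by linarith) (by linarith))
            · exact hno η hη0 (key (v - η) (by linarith) (by linarith) (by linarith)
                (by linarith))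
          obtain ⟨δ, hδ, u, h7, h8, h9⟩ := h6
          obtain ⟨j, hj⟩ := exists_nat_one_div_lt hδ
          apply hcon
          simp only [mem_iUnion]
          refine ⟨b, ⟨hb, hnew⟩, j, hA, u, h7, by linarith, ?_⟩
          exact h9.mono_right (Ioo_subset_Ioo_right (by linarith))
        refine ⟨hO, ?_⟩
        rw [hO, Pool.Agent.Q77.Cos.dimH_unit]
        exact le_add_self
      refine Set.Countable.mono hsub ?_
      apply Set.Countable.biUnion (Set.to_countable _)
      rintro b ⟨hb, hnew⟩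
      apply Set.countable_iUnion
      intro j
      obtain ⟨C, hC⟩ := h2 b hb hnew
      exact (hC P hinf hsp x (1 / ((j : ℝ) + 1)) (by positivity)).1.countable
  · intro P hP x
    rw [ae_all_iff]
    intro b
    by_cases hb : 2 ≤ b ∧ NewPrime a b
    · obtain ⟨hb2, p, hp1, hp2, hp3⟩ := hb
      filter_upwards [Pool.Agent.Q77.Cos.random_dense a b ha hb2 ⟨p, hp1, hp2, hp3⟩ P hP x]
        with ω hω _ _
      exact hω
    · exact Filter.Eventually.of_forall fun ω h1 h2 => absurd ⟨h1, h2⟩ hb

end Pool.Agent.Results.MP_c9a594_an.SparseDigitChanges
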